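import Pool.Agent.helper7.BQ.Spec

/-! Row MTM of project BQ: the mean of the model over the values at the primes. -/

set_option autoImplicit false

namespace Pool.Agent.BQ

open Finset ArithmeticFunction

private lemma MTM_abs (q : ℕ) (n : ℤ) : |cR q n| ≤ (q : ℝ) ^ 2 := by
  unfold cR
  calc |∑ d ∈ q.divisors.filter (fun d : ℕ => (d : ℤ) ∣ n), (d : ℝ) * ((moebius (q / d) : ℤ) : ℝ)|
      ≤ ∑ d ∈ q.divisors.filter (fun d : ℕ => (d : ℤ) ∣ n),
          |(d : ℝ) * ((moebius (q / d) : ℤ) : ℝ)| := Finset.abs_sum_le_sum_abs _ _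
    _ ≤ ∑ d ∈ q.divisors.filter (fun d : ℕ => (d : ℤ) ∣ n), (q : ℝ) := by
        refine Finset.sum_le_sum fun d hd => ?_
        have hd' := Nat.divisor_le (Finset.mem_filter.1 hd).1
        rw [abs_mul, Nat.abs_cast]
        have h1 : |((moebius (q / d) : ℤ) : ℝ)| ≤ 1 := by
          rw [← Int.cast_abs]
          exact_mod_cast abs_moebius_le_one
        calc (d : ℝ) * |((moebius (q / d) : ℤ) : ℝ)| ≤ d * 1 :=
              mul_le_mul_of_nonneg_left h1 (Nat.cast_nonneg _)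
          _ ≤ q := by rw [mul_one]; exact_mod_cast hd'
    _ = (#(q.divisors.filter (fun d : ℕ => (d : ℤ) ∣ n)) : ℝ) * q := by
        rw [sum_const, nsmul_eq_mul]
    _ ≤ q * q := by
        have h : (#(q.divisors.filter (fun d : ℕ => (d : ℤ) ∣ n)) : ℝ) ≤ q := by
          exact_mod_cast (card_filter_le _ _).trans (Nat.card_divisors_le_self q)
        exact mul_le_mul_of_nonneg_right h (Nat.cast_nonneg _)
    _ = (q : ℝ) ^ 2 := by ring

private lemma MTM_per (q : ℕ) (n n' : ℤ) (h : (q : ℤ) ∣ n - n') : cR q n = cR q n' := by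
  unfold cR
  have : q.divisors.filter (fun d : ℕ => (d : ℤ) ∣ n) =
      q.divisors.filter (fun d : ℕ => (d : ℤ) ∣ n') := by
    refine Finset.filter_congr fun d hd => ?_
    have hdq : (d : ℤ) ∣ q := Int.natCast_dvd_natCast.2 (Nat.dvd_of_mem_divisors hd)
    have h2 : (d : ℤ) ∣ n - n' := hdq.trans h
    constructor
    · intro h3
      have h4 := dvd_sub h3 h2
      rwa [sub_sub_cancel] at h4
    · intro h3
      have h4 := dvd_add h2 h3
      rwa [sub_add_cancel] at h4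
  rw [this]

private lemma MTM_q (x q : ℕ) (b : ℤ) (η : ℝ) (hq : 1 ≤ q) (hqx : q ≤ x)
    (h : ∀ c : ℕ, Nat.Coprime c q →
      |∑ p ∈ (Pr x).filter (fun p => p % q = c % q), Real.log p - x / (Nat.totient q : ℝ)| ≤ η) :
    |∑ p ∈ Pr x, Real.log p * cR q (8 * (p : ℤ) ^ 2 - b) -
      x / (Nat.totient q : ℝ) *
        ∑ c ∈ (range q).filter (fun c => Nat.Coprime c q), cR q (8 * (c : ℤ) ^ 2 - b)| ≤
      (q : ℝ) ^ 3 * η := by
  have hmaps : ∀ p ∈ Pr x, p % q ∈ (range q).filter (fun c => Nat.Coprime c q) := by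
    intro p hp
    simp only [Pr, mem_filter, mem_Ioc] at hp
    refine mem_filter.2 ⟨mem_range.2 (Nat.mod_lt _ (by omega)), ?_⟩
    have h1 : Nat.Coprime p q := by
      rw [Nat.Prime.coprime_iff_not_dvd hp.2]
      intro hd
      have := Nat.le_of_dvd (by omega) hd
      omega
    have h2 : Nat.gcd (p % q) q = 1 := by
      rw [← Nat.gcd_rec, Nat.gcd_comm]
      exact h1
    exact h2
  have e1 : ∑ p ∈ Pr x, Real.log p * cR q (8 * (p : ℤ) ^ 2 - b) =
      ∑ c ∈ (range q).filter (fun c => Nat.Coprime c q),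
        cR q (8 * (c : ℤ) ^ 2 - b) *
          ∑ p ∈ (Pr x).filter (fun p => p % q = c % q), Real.log p := by
    rw [← Finset.sum_fiberwise_of_maps_to hmaps]
    refine Finset.sum_congr rfl fun c hc => ?_
    have hcq : c % q = c := Nat.mod_eq_of_lt (mem_range.1 (mem_filter.1 hc).1)
    rw [hcq, Finset.mul_sum]
    refine Finset.sum_congr rfl fun p hp => ?_
    have hpc : p % q = c := (mem_filter.1 hp).2
    have hd : (q : ℤ) ∣ (p : ℤ) - c := by
      have h1 : (p : ℤ) % q = c := by exact_mod_cast hpc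
      rw [← h1]
      exact Int.dvd_self_sub_emod
    have hper : cR q (8 * (p : ℤ) ^ 2 - b) = cR q (8 * (c : ℤ) ^ 2 - b) := by
      refine MTM_per q _ _ ?_
      have e : (8 * (p : ℤ) ^ 2 - b) - (8 * (c : ℤ) ^ 2 - b) =
          ((p : ℤ) - c) * (8 * ((p : ℤ) + c)) := by ring
      rw [e]
      exact hd.mul_right _
    rw [hper, mul_comm]
  rw [e1, Finset.mul_sum, ← Finset.sum_sub_distrib]
  have hη : 0 ≤ η := (abs_nonneg _).trans (h 1 (Nat.coprime_one_left q))
  calc |∑ c ∈ (range q).filter (fun c => Nat.Coprime c q),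
        (cR q (8 * (c : ℤ) ^ 2 - b) *
          ∑ p ∈ (Pr x).filter (fun p => p % q = c % q), Real.log p -
        x / (Nat.totient q : ℝ) * cR q (8 * (c : ℤ) ^ 2 - b))|
      ≤ ∑ c ∈ (range q).filter (fun c => Nat.Coprime c q),
        |cR q (8 * (c : ℤ) ^ 2 - b) *
          ∑ p ∈ (Pr x).filter (fun p => p % q = c % q), Real.log p -
        x / (Nat.totient q : ℝ) * cR q (8 * (c : ℤ) ^ 2 - b)| := Finset.abs_sum_le_sum_abs _ _
    _ ≤ ∑ c ∈ (range q).filter (fun c => Nat.Coprime c q), (q : ℝ) ^ 2 * η := by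
        refine Finset.sum_le_sum fun c hc => ?_
        have e : cR q (8 * (c : ℤ) ^ 2 - b) *
            ∑ p ∈ (Pr x).filter (fun p => p % q = c % q), Real.log p -
            x / (Nat.totient q : ℝ) * cR q (8 * (c : ℤ) ^ 2 - b) =
            cR q (8 * (c : ℤ) ^ 2 - b) *
              (∑ p ∈ (Pr x).filter (fun p => p % q = c % q), Real.log p -
                x / (Nat.totient q : ℝ)) := by ring
        rw [e, abs_mul]
        exact mul_le_mul (MTM_abs q _) (h c (mem_filter.1 hc).2) (abs_nonneg _) (by positivity)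
    _ = (#((range q).filter (fun c => Nat.Coprime c q)) : ℝ) * ((q : ℝ) ^ 2 * η) := by
        rw [sum_const, nsmul_eq_mul]
    _ ≤ q * ((q : ℝ) ^ 2 * η) := by
        have h1 : (#((range q).filter (fun c => Nat.Coprime c q)) : ℝ) ≤ q := by
          have h2 := card_filter_le (range q) (fun c => Nat.Coprime c q)
          rw [card_range] at h2
          exact_mod_cast h2
        exact mul_le_mul_of_nonneg_right h1 (by positivity)
    _ = (q : ℝ) ^ 3 * η := by ring

theorem MTM (h1 : SWT_stmt) : MTM_stmt := by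
  intro A K
  obtain ⟨x₁, hx₁⟩ := h1 (A + 4 * K) K
  have hlog : ∀ᶠ y : ℝ in Filter.atTop, Real.log y ^ K ≤ y := by
    have h := (Real.isLittleO_pow_log_id_atTop (n := K)).bound (c := 1) one_pos
    filter_upwards [h, Filter.eventually_ge_atTop (1 : ℝ)] with y hy hy1
    rw [Real.norm_eq_abs, Real.norm_eq_abs, one_mul, id] at hy
    rw [abs_of_nonneg (by linarith : (0 : ℝ) ≤ y)] at hy
    exact (le_abs_self _).trans hy
  obtain ⟨y₀, hy₀⟩ := Filter.eventually_atTop.1 hlog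
  refine ⟨max (max x₁ 3) ⌈y₀⌉₊, fun x hx Q hQ b hb => ?_⟩
  have hxx₁ : x₁ ≤ x := le_trans (le_trans (le_max_left _ _) (le_max_left _ _)) hx
  have hx3 : 3 ≤ x := le_trans (le_trans (le_max_right _ _) (le_max_left _ _)) hx
  have hxy : y₀ ≤ (x : ℝ) := (Nat.le_ceil y₀).trans
    (by exact_mod_cast le_trans (le_max_right _ _) hx)
  have hlogx : 1 ≤ Real.log x := by
    have h3 : (3 : ℝ) ≤ x := by exact_mod_cast hx3
    rw [Real.le_log_iff_exp_le (by linarith)]
    have := Real.exp_one_lt_d9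
    linarith
  have hQx : Q ≤ x := by
    have := hQ.trans (hy₀ x hxy)
    exact_mod_cast this
  obtain ⟨η, hη⟩ : ∃ η : ℝ, η = x / Real.log x ^ (A + 4 * K) := ⟨_, rfl⟩
  have hηpos : 0 ≤ η := by rw [hη]; positivity
  -- rewrite Rf
  have e1 : Rf (fun n => Lsh Q (n : ℤ)) x b = ∑ q ∈ Ioc 0 Q,
      ((moebius q : ℤ) : ℝ) / (Nat.totient q : ℝ) *
        ∑ p ∈ Pr x, Real.log p * cR q (8 * (p : ℤ) ^ 2 - b) := by
    have e : Rf (fun n => Lsh Q (n : ℤ)) x b = ∑ p ∈ Pr x, ∑ q ∈ Ioc 0 Q,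
        ((moebius q : ℤ) : ℝ) / (Nat.totient q : ℝ) *
          (Real.log p * cR q (8 * (p : ℤ) ^ 2 - b)) := by
      unfold Rf
      refine Finset.sum_congr rfl fun p hp => ?_
      simp only [Pr, mem_filter, mem_Ioc] at hp
      have hp' : (x : ℤ) < p := by exact_mod_cast hp.1.1
      have hx0 : (0 : ℤ) ≤ x := by positivity
      have hn : 0 ≤ 8 * (p : ℤ) ^ 2 - b := by nlinarith
      have hc : (((8 * (p : ℤ) ^ 2 - b).toNat : ℕ) : ℤ) = 8 * (p : ℤ) ^ 2 - b :=
        Int.toNat_of_nonneg hn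
      simp only [hc]
      unfold Lsh
      rw [Finset.mul_sum]
      exact Finset.sum_congr rfl fun q _ => by ring
    rw [e, Finset.sum_comm]
    exact Finset.sum_congr rfl fun q _ => by rw [Finset.mul_sum]
  have e2 : (x : ℝ) * ∑ q ∈ Ioc 0 Q, AA q b = ∑ q ∈ Ioc 0 Q,
      ((moebius q : ℤ) : ℝ) / (Nat.totient q : ℝ) *
        (x / (Nat.totient q : ℝ) *
        ∑ c ∈ (range q).filter (fun c => Nat.Coprime c q), cR q (8 * (c : ℤ) ^ 2 - b)) := by
    rw [Finset.mul_sum]
    refine Finset.sum_congr rfl fun q hq => ?_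
    have hφ : (Nat.totient q : ℝ) ≠ 0 := by
      have := Nat.totient_pos.2 (mem_Ioc.1 hq).1
      positivity
    unfold AA
    field_simp
  rw [e1, e2, ← Finset.sum_sub_distrib]
  calc |∑ q ∈ Ioc 0 Q, (((moebius q : ℤ) : ℝ) / (Nat.totient q : ℝ) *
        ∑ p ∈ Pr x, Real.log p * cR q (8 * (p : ℤ) ^ 2 - b) -
        ((moebius q : ℤ) : ℝ) / (Nat.totient q : ℝ) *
        (x / (Nat.totient q : ℝ) *
        ∑ c ∈ (range q).filter (fun c => Nat.Coprime c q), cR q (8 * (c : ℤ) ^ 2 - b)))|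
      ≤ ∑ q ∈ Ioc 0 Q, |((moebius q : ℤ) : ℝ) / (Nat.totient q : ℝ) *
        ∑ p ∈ Pr x, Real.log p * cR q (8 * (p : ℤ) ^ 2 - b) -
        ((moebius q : ℤ) : ℝ) / (Nat.totient q : ℝ) *
        (x / (Nat.totient q : ℝ) *
        ∑ c ∈ (range q).filter (fun c => Nat.Coprime c q), cR q (8 * (c : ℤ) ^ 2 - b))| :=
        Finset.abs_sum_le_sum_abs _ _
    _ ≤ ∑ q ∈ Ioc 0 Q, (Q : ℝ) ^ 3 * η := by
        refine Finset.sum_le_sum fun q hq => ?_
        obtain ⟨hq0, hqQ⟩ := mem_Ioc.1 hq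
        have hqK : (q : ℝ) ≤ Real.log x ^ K := le_trans (by exact_mod_cast hqQ) hQ
        have h3 := MTM_q x q b η hq0 (hqQ.trans hQx) (fun c hc => by
          rw [hη]; exact hx₁ x hxx₁ q hq0 hqK c hc)
        rw [← mul_sub, abs_mul]
        have hφ : (1 : ℝ) ≤ (Nat.totient q : ℝ) := by
          have := Nat.totient_pos.2 hq0
          exact_mod_cast this
        have h4 : |((moebius q : ℤ) : ℝ) / (Nat.totient q : ℝ)| ≤ 1 := by
          rw [abs_div, Nat.abs_cast, ← Int.cast_abs]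
          have h5 : ((|moebius q| : ℤ) : ℝ) ≤ 1 := by exact_mod_cast abs_moebius_le_one
          rw [div_le_one (by linarith)]
          linarith
        have h6 : (q : ℝ) ^ 3 * η ≤ (Q : ℝ) ^ 3 * η := by
          have h7 : (q : ℝ) ≤ Q := by exact_mod_cast hqQ
          exact mul_le_mul_of_nonneg_right (pow_le_pow_left₀ (Nat.cast_nonneg _) h7 3) hηpos
        calc _ ≤ 1 * ((q : ℝ) ^ 3 * η) :=
              mul_le_mul h4 h3 (abs_nonneg _) zero_le_one
          _ ≤ (Q : ℝ) ^ 3 * η := by rw [one_mul]; exact h6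
    _ = (Q : ℝ) ^ 4 * η := by
        rw [sum_const, nsmul_eq_mul, Nat.card_Ioc, Nat.sub_zero]
        ring
    _ ≤ (Real.log x ^ K) ^ 4 * η :=
        mul_le_mul_of_nonneg_right (pow_le_pow_left₀ (Nat.cast_nonneg _) hQ 4) hηpos
    _ = x / Real.log x ^ A := by
        rw [hη, pow_add, ← pow_mul, mul_comm K 4]
        have : Real.log x ≠ 0 := by linarith
        field_simp

end Pool.Agent.BQ
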